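import Pool.Agent.Lib_helper59.REV.Defs

/-! # REVM: uniform stability for bodies of revolution, definitions (MP_34631e_gt) -/

open MeasureTheory Filter Topology

namespace Pool.Agent.Lib_helper59.REV

/-- `∫ r g dr` over `(a, b)`, `g = gr f` -/
noncomputable def I1 (f : ℝ → ℝ) (a b : ℝ) : ENNReal :=
  ∫⁻ r in Set.Ioo a b, ENNReal.ofReal (r * gr f r)

/-- `∫ r |R - √(R² - r²) g| dr` over `(0, R)` -/
noncomputable def E1 (R : ℝ) (f : ℝ → ℝ) : ENNReal :=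
  ∫⁻ r in Set.Ioo 0 R, ENNReal.ofReal (r * |R - √(R ^ 2 - r ^ 2) * gr f r|)

/-- `∫ r (R - √(R² - r²) g)² / g dr` over `(0, R)` -/
noncomputable def DD (R : ℝ) (f : ℝ → ℝ) : ENNReal :=
  ∫⁻ r in Set.Ioo 0 R, ENNReal.ofReal (r * ((R - √(R ^ 2 - r ^ 2) * gr f r) ^ 2 / gr f r))

end Pool.Agent.Lib_helper59.REV
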